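import Pool.Agent.Q224.EP.Time

/-!
# MP_a6fa5c, Q1: graphs in which given edge sequences are paths

Deciding whether an instance `(E; S_1, …, S_m)` has a realisation is NP-hard.
-/

set_option autoImplicit false

namespace Pool.Agent.Results.MP_a6fa5c_lc.PathRealisationHard

open Pool.Agent.NPC

/-- The sequence `s = (e_1, …, e_k)` is a simple path when the edge `e` is the pair `f e`: there
are pairwise distinct vertices `v_0, …, v_k` with `f e_i = {v_{i-1}, v_i}`. -/
def IsSimplePath {V : Type} (f : ℕ → Sym2 V) (s : List ℕ) : Prop :=
  ∃ v : List V, v.length = s.length + 1 ∧ v.Nodup ∧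
    ∀ (i : ℕ) (h1 : i < s.length) (h2 : i + 1 < v.length), f s[i] = s(v[i], v[i + 1])

/-- An instance `x` consists of a list `x.1` of numbers, the elements of `E`, and a list `x.2` of
sequences. It has a realisation if there are a finite simple graph `G` and a map `f` giving a
bijection from `E` to the edge set of `G` such that every sequence consists of elements of `E` and
is a simple path. -/
def HasRealisation (x : List ℕ × List (List ℕ)) : Prop :=
  ∃ (V : Type) (_ : Finite V) (G : SimpleGraph V) (f : ℕ → Sym2 V),
    Set.BijOn f {e | e ∈ x.1} G.edgeSet ∧ ∀ s ∈ x.2, (∀ e ∈ s, e ∈ x.1) ∧ IsSimplePath f s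

/-- Deciding whether an instance has a realisation is NP-hard. -/
theorem result : NPHardP HasRealisation := Pool.Agent.NPC.Q224EP.hard.toNPHardP

end Pool.Agent.Results.MP_a6fa5c_lc.PathRealisationHard
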